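import Pool.Agent.H998.LT.Defs

set_option autoImplicit false

open Pool.Agent.H998.LT

namespace Pool.Agent.H199.LT

theorem base_inj {θ : ℝ} (h0 : 0 < θ) (h1 : θ < 1) {b b' : Bool} {n n' : ℤ}
    (h : (n : ℝ) + (if b then θ else 0) = n' + (if b' then θ else 0)) : b = b' ∧ n = n' := by
  cases b <;> cases b'
  · simp only [Bool.false_eq_true, if_false, add_zero] at h
    exact ⟨rfl, by exact_mod_cast h⟩
  · exfalso
    simp only [Bool.false_eq_true, if_false, if_true, add_zero] at h
    have h2 : (0 : ℝ) < ((n - n' : ℤ) : ℝ) := by push_cast; linarith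
    have h3 : ((n - n' : ℤ) : ℝ) < 1 := by push_cast; linarith
    have h4 : 0 < n - n' := by exact_mod_cast h2
    have h5 : n - n' < 1 := by exact_mod_cast h3
    omega
  · exfalso
    simp only [Bool.false_eq_true, if_false, if_true, add_zero] at h
    have h2 : (0 : ℝ) < ((n' - n : ℤ) : ℝ) := by push_cast; linarith
    have h3 : ((n' - n : ℤ) : ℝ) < 1 := by push_cast; linarith
    have h4 : 0 < n' - n := by exact_mod_cast h2
    have h5 : n' - n < 1 := by exact_mod_cast h3
    omega
  · simp only [if_true] at h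
    have h2 : (n : ℝ) = n' := by linarith
    exact ⟨rfl, by exact_mod_cast h2⟩

theorem t_sigma : S_sigma := by
  intro θ h0 h1
  let D : Set ℝ := Set.range fun q : (Bool × ℤ) × (Bool × ℤ) =>
    ((q.1.2 : ℝ) + (if q.1.1 then θ else 0)) - Real.sqrt 2 * ((q.2.2 : ℝ) + (if q.2.1 then θ else 0))
  have hD : D.Countable := Set.countable_range _
  have hne : ∃ σ : ℝ, σ ∉ D := by
    by_contra hcon
    push Not at hcon
    have h2 : D = Set.univ := Set.eq_univ_of_forall hcon
    rw [h2] at hD
    exact Cardinal.not_countable_real hD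
  obtain ⟨σ, hσ⟩ := hne
  refine ⟨σ, ?_⟩
  have h2 : (0 : ℝ) < Real.sqrt 2 := Real.sqrt_pos.2 (by norm_num)
  rintro ⟨a, b, n⟩ ⟨a', b', n'⟩ h
  cases a <;> cases a'
  · simp only [hgt, per, off, Bool.false_eq_true, if_false, one_mul, add_zero] at h
    obtain ⟨h3, h4⟩ := base_inj h0 h1 h
    rw [h3, h4]
  · exfalso
    apply hσ
    refine ⟨((b, n), (b', n')), ?_⟩
    simp only [hgt, per, off, Bool.false_eq_true, if_false, if_true, one_mul, add_zero] at h
    show ((n : ℝ) + (if b then θ else 0)) - Real.sqrt 2 * ((n' : ℝ) + (if b' then θ else 0)) = σ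
    linarith
  · exfalso
    apply hσ
    refine ⟨((b', n'), (b, n)), ?_⟩
    simp only [hgt, per, off, Bool.false_eq_true, if_false, if_true, one_mul, add_zero] at h
    show ((n' : ℝ) + (if b' then θ else 0)) - Real.sqrt 2 * ((n : ℝ) + (if b then θ else 0)) = σ
    linarith
  · simp only [hgt, per, off, if_true] at h
    have h3 : Real.sqrt 2 * ((n : ℝ) + (if b then θ else 0)) =
        Real.sqrt 2 * ((n' : ℝ) + (if b' then θ else 0)) := by linarith
    obtain ⟨h3, h4⟩ := base_inj h0 h1 (mul_left_cancel₀ h2.ne' h3)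
    rw [h3, h4]

end Pool.Agent.H199.LT
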